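import Pool.Agent.Helper32.AG.Goals

/-!
# Project AG, packet N1: an inequality between numbers
-/

set_option autoImplicit false

namespace Pool.Agent.Helper91.AG

theorem nine_sq_le (r : ℕ) : 9 * r ^ 2 ≤ 4 * 3 ^ r := by
  rcases Nat.lt_or_ge r 3 with h | h
  · interval_cases r <;> norm_num
  · induction r, h using Nat.le_induction with
    | base => norm_num
    | succ n hn ih =>
      have h1 : (n + 1) ^ 2 ≤ 3 * n ^ 2 := by nlinarith
      calc 9 * (n + 1) ^ 2 ≤ 9 * (3 * n ^ 2) := Nat.mul_le_mul_left 9 h1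
        _ = 3 * (9 * n ^ 2) := by ring
        _ ≤ 3 * (4 * 3 ^ n) := Nat.mul_le_mul_left 3 ih
        _ = 4 * 3 ^ (n + 1) := by rw [pow_succ]; ring

/-- The key inequality, with `s = t + 3`. -/
theorem key (t w : ℕ) (hw : 3 ≤ w) (h : 4 ≤ w ∨ 1 ≤ t) :
    2 * (t + 3) ^ 2 * (t + 2) * (w + 1) ^ (t + 3) ≤ 3 ^ (t + 4) * w ^ (2 * t + 3) := by
  have step : ∀ t : ℕ, 2 * (t + 3) ^ 2 * (t + 2) * (w + 1) ^ (t + 3) ≤
      3 ^ (t + 4) * w ^ (2 * t + 3) →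
      2 * (t + 4) ^ 2 * (t + 3) * (w + 1) ^ (t + 4) ≤ 3 ^ (t + 5) * w ^ (2 * t + 5) := by
    intro t ih
    have h1 : (t + 4) ^ 2 ≤ 3 * ((t + 3) * (t + 2)) := by nlinarith
    have h2 : w + 1 ≤ w ^ 2 := by nlinarith
    have h3 : (t + 4) ^ 2 * (w + 1) ≤ 3 * ((t + 3) * (t + 2)) * w ^ 2 := Nat.mul_le_mul h1 h2
    calc 2 * (t + 4) ^ 2 * (t + 3) * (w + 1) ^ (t + 4)
        = ((t + 4) ^ 2 * (w + 1)) * (2 * (t + 3) * (w + 1) ^ (t + 3)) := by ring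
      _ ≤ (3 * ((t + 3) * (t + 2)) * w ^ 2) * (2 * (t + 3) * (w + 1) ^ (t + 3)) :=
          Nat.mul_le_mul_right _ h3
      _ = 3 * w ^ 2 * (2 * (t + 3) ^ 2 * (t + 2) * (w + 1) ^ (t + 3)) := by ring
      _ ≤ 3 * w ^ 2 * (3 ^ (t + 4) * w ^ (2 * t + 3)) := Nat.mul_le_mul_left _ ih
      _ = 3 ^ (t + 5) * w ^ (2 * t + 5) := by ring
  rcases Nat.lt_or_ge w 4 with hw4 | hw4
  · obtain rfl : w = 3 := by omega
    have ht : 1 ≤ t := by omega
    induction t, ht using Nat.le_induction with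
    | base => norm_num
    | succ n hn ih => exact step n (ih (by omega))
  · induction t with
    | zero =>
      have h1 : 4 * (w + 1) ≤ 5 * w := by omega
      have h2 : (4 * (w + 1)) ^ 3 ≤ (5 * w) ^ 3 := Nat.pow_le_pow_left h1 3
      have h3 : 2 * (0 + 3) ^ 2 * (0 + 2) * (w + 1) ^ (0 + 3) = 36 * (w + 1) ^ 3 := by ring
      have h4 : 3 ^ (0 + 4) * w ^ (2 * 0 + 3) = 81 * w ^ 3 := by norm_num
      rw [h3, h4]
      have h5 : 64 * (w + 1) ^ 3 ≤ 125 * w ^ 3 := by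
        calc 64 * (w + 1) ^ 3 = (4 * (w + 1)) ^ 3 := by ring
          _ ≤ (5 * w) ^ 3 := h2
          _ = 125 * w ^ 3 := by ring
      omega
    | succ n ih => exact step n (ih (Or.inl hw4))

/-- **N1.** -/
theorem n1 : Pool.Agent.Helper32.AG.N1Stmt := by
  intro s w κ c1 c2 r hs hw hκ hc1 hc2 hr h1 h2 h3
  obtain ⟨t, rfl⟩ : ∃ t, s = t + 3 := ⟨s - 3, by omega⟩
  rw [show t + 3 - 3 = t by omega]
  by_cases hsp : w = 3 ∧ t = 0
  · obtain ⟨rfl, rfl⟩ := hsp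
    have h4 : 4 ≤ c1 + c2 + r := by
      by_contra hlt
      obtain rfl : c1 = 1 := by omega
      obtain rfl : c2 = 1 := by omega
      obtain rfl : r = 1 := by omega
      norm_num at h1 h3
      omega
    calc (3 + 1) ^ (0 + 3) ≤ 3 ^ 4 := by norm_num
      _ ≤ 3 ^ (c1 + c2 + r + 0) := Nat.pow_le_pow_right (by norm_num) (by omega)
  · have hk := key t w hw (by omega)
    have hC : (t + 3) * (t + 2) = (t + 3).choose 2 * 2 := by
      have := Nat.add_one_mul_choose_eq (t + 2) 1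
      rw [Nat.choose_one_right] at this
      exact this
    have hw0 : 0 < w := by omega
    -- the product of the hypotheses
    have e1 : (3 * κ) * (3 * κ) ≤ (3 ^ c1 * ((t + 3) * w)) * (3 ^ c2 * ((t + 3).choose 2 * w ^ 2)) :=
      Nat.mul_le_mul h1 h2
    have e2 : w ^ (t + 3) * w ^ (t + 3) ≤ (r * κ) * (r * κ) := Nat.mul_le_mul h3 h3
    have e3 := nine_sq_le r
    have e4 : 81 * (w ^ (t + 3) * w ^ (t + 3)) ≤
        2 * (t + 3) ^ 2 * (t + 2) * 3 ^ (c1 + c2 + r) * w ^ 3 := by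
      calc 81 * (w ^ (t + 3) * w ^ (t + 3)) ≤ 81 * ((r * κ) * (r * κ)) :=
            Nat.mul_le_mul_left _ e2
        _ = 9 * r ^ 2 * ((3 * κ) * (3 * κ)) := by ring
        _ ≤ 4 * 3 ^ r * ((3 ^ c1 * ((t + 3) * w)) * (3 ^ c2 * ((t + 3).choose 2 * w ^ 2))) :=
            Nat.mul_le_mul e3 e1
        _ = 2 * (t + 3) * ((t + 3).choose 2 * 2) * (3 ^ c1 * 3 ^ c2 * 3 ^ r) * w ^ 3 := by ring
        _ = 2 * (t + 3) ^ 2 * (t + 2) * 3 ^ (c1 + c2 + r) * w ^ 3 := by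
            rw [← hC, pow_add, pow_add]; ring
    have e5 : w ^ 3 * (2 * (t + 3) ^ 2 * (t + 2) * (w + 1) ^ (t + 3)) ≤
        w ^ 3 * (2 * (t + 3) ^ 2 * (t + 2) * 3 ^ (c1 + c2 + r + t)) := by
      calc w ^ 3 * (2 * (t + 3) ^ 2 * (t + 2) * (w + 1) ^ (t + 3))
          ≤ w ^ 3 * (3 ^ (t + 4) * w ^ (2 * t + 3)) := Nat.mul_le_mul_left _ hk
        _ = 3 ^ t * (81 * (w ^ (t + 3) * w ^ (t + 3))) := by ring
        _ ≤ 3 ^ t * (2 * (t + 3) ^ 2 * (t + 2) * 3 ^ (c1 + c2 + r) * w ^ 3) :=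
            Nat.mul_le_mul_left _ e4
        _ = w ^ 3 * (2 * (t + 3) ^ 2 * (t + 2) * 3 ^ (c1 + c2 + r + t)) := by
            rw [pow_add 3 (c1 + c2 + r) t]; ring
    have e6 := Nat.le_of_mul_le_mul_left e5 (by positivity)
    exact Nat.le_of_mul_le_mul_left e6 (by positivity)

end Pool.Agent.Helper91.AG
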